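import Pool.Agent.H85.Sierp

set_option autoImplicit false

namespace Pool.Agent.Results.MP_ed4d4f_gt.NoSierpinski

open Pool.Agent.H85.CovDefs

/-- Under CH, for every Sierpinski set `S` there is a Hurewicz set of reals `Y` such that
`S × Y` is not Hurewicz. -/
theorem result (hCH : Cardinal.continuum.{0} = Cardinal.aleph 1) (S : Set ℝ)
    (hS : Sierpinski S) : ∃ Y : Set ℝ, Hurewicz Y ∧ ¬ Hurewicz (S × Y) :=
  Pool.Agent.H85.Sierp.main hCH hS

end Pool.Agent.Results.MP_ed4d4f_gt.NoSierpinski
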